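import Pool.Agent.H15.FLX.Targets
import Pool.Agent.H41.MC.CAP

/-!
MP_c62aed_lc, random CNFs: the row ARX.
-/

set_option autoImplicit false

namespace Pool.Agent.H15.FLX

open Finset
open Pool.Agent.H53.MC (Clause Falsified SatBy Line Circuit U Viol toC scope Ins cnt H1 Covers Ker
  Err InR Bad cf tau)

namespace ARXaux

theorem card_mono {α : Type} [Finite α] {P Q : α → Prop} (h : ∀ x, P x → Q x) :
    Nat.card {x // P x} ≤ Nat.card {x // Q x} :=
  Nat.card_le_card_of_injective (fun x : {x // P x} => (⟨x.1, h x.1 x.2⟩ : {x // Q x}))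
    (fun _ _ hab => Subtype.ext (congrArg (fun z : {x // Q x} => z.1) hab))

theorem card_or {α : Type} [Finite α] (P Q : α → Prop) :
    Nat.card {x // P x ∨ Q x} ≤ Nat.card {x // P x} + Nat.card {x // Q x} := by
  classical
  have := Fintype.ofFinite α
  simp only [Nat.card_eq_fintype_card]
  exact Fintype.card_subtype_or P Q

theorem card_ex {α : Type} [Finite α] (B : ℕ → α → Prop) (Y X : ℕ) :
    ∀ s : ℕ, (∀ i, i < s → Nat.card {x // B i x} * Y ≤ X) →
      Nat.card {x // ∃ i, i < s ∧ B i x} * Y ≤ s * X := by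
  intro s
  induction s with
  | zero =>
    intro _
    have : IsEmpty {x : α // ∃ i, i < 0 ∧ B i x} := ⟨fun x => by
      obtain ⟨i, hi, _⟩ := x.2
      omega⟩
    simp
  | succ s ih =>
    intro h
    have h1 := ih (fun i hi => h i (by omega))
    have h2 := h s (by omega)
    have h3 : Nat.card {x // ∃ i, i < s + 1 ∧ B i x} ≤
        Nat.card {x // (∃ i, i < s ∧ B i x) ∨ B s x} := by
      apply card_mono
      rintro x ⟨i, hi, hb⟩
      rcases Nat.lt_succ_iff_lt_or_eq.mp hi with h' | h'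
      · exact Or.inl ⟨i, h', hb⟩
      · exact Or.inr (h' ▸ hb)
    have h4 := card_or (fun x => ∃ i, i < s ∧ B i x) (B s)
    calc _ ≤ (Nat.card {x // ∃ i, i < s ∧ B i x} + Nat.card {x // B s x}) * Y :=
          Nat.mul_le_mul_right _ (h3.trans h4)
      _ = Nat.card {x // ∃ i, i < s ∧ B i x} * Y + Nat.card {x // B s x} * Y := by ring
      _ ≤ s * X + X := Nat.add_le_add h1 h2
      _ = (s + 1) * X := by ring

theorem le_two_pow {γ : ℝ} {n s : ℕ} (hγ : γ ≤ 1) (h : (s : ℝ) ≤ 2 ^ (γ * n)) :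
    s ≤ 2 ^ n := by
  have h1 : (2 : ℝ) ^ (γ * n) ≤ 2 ^ ((n : ℕ) : ℝ) := by
    apply Real.rpow_le_rpow_of_exponent_le (by norm_num)
    have : (0 : ℝ) ≤ n := Nat.cast_nonneg n
    nlinarith
  rw [Real.rpow_natCast] at h1
  have h2 : (s : ℝ) ≤ 2 ^ n := h.trans h1
  exact_mod_cast h2

theorem pow_split {γ : ℝ} (n : ℕ) : (2 : ℝ) ^ (γ * n) * 2 ^ ((1 - γ) * n) = 2 ^ n := by
  rw [← Real.rpow_add (by norm_num)]
  have : γ * n + (1 - γ) * n = ((n : ℕ) : ℝ) := by ring
  rw [this, Real.rpow_natCast]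

end ARXaux

open ARXaux in
theorem pf_ARX (hLFX : T_LFX) (hHTX : T_HTX) (hKRX : T_KRX) (hEBX : T_EBX) (hPRX : T_PRX) :
    T_ARX := by
  intro n M k μ g γ t w d s₀ r q hinj hH1 hP s f i₀ θ hi₀
  classical
  -- notation
  set N := Nat.card (Signs n M μ) with hNdef
  set Y := (2 ^ k) ^ (q + 1) with hY
  set X := (s₀ * μ) ^ (q + 1) * N with hX
  have hYpos : 0 < Y := by
    rw [hY]
    positivity
  have hNpos : 0 < N := by
    rw [hNdef]
    exact Nat.card_pos
  -- the bad formulas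
  have hbad : Nat.card {σ : Signs n M μ // ∃ i, i < s ∧ Bad g q (KR g r w f i) (FG g σ)} * Y ≤
      s * X := by
    apply card_ex
    intro i _
    exact hLFX g w s₀ q hinj hH1 (KR g r w f i) (hKRX g r w f i).1 (hKRX g r w f i).2
  set b := Nat.card {σ : Signs n M μ // ∃ i, i < s ∧ Bad g q (KR g r w f i) (FG g σ)} with hbdef
  have hr1 : 1 ≤ r := by
    have := hP.rr
    have := hP.t1
    omega
  have hEE : ∀ i, (ER g r w f i).card ≤ i * tau n r w d s₀ :=
    hEBX g r w d s₀ hr1 hP.d1 hP.wn hH1 f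
  have hPR' : ∀ σ : Signs n M μ, ¬ (∃ i, i < s ∧ Bad g q (KR g r w f i) (FG g σ)) →
      DerivesR (Set.range (cf g (FG g σ))) f t i₀ θ →
      (∃ T : Finset (U M k), InR (FG g σ) T ∧ T.card ≤ q ∧
        Covers g T (BR (ER g r w f (i₀ + 1)) (f i₀) θ)) ∧
      ∀ p ∈ Ker g r w (BR (ER g r w f i₀) (f i₀) θ), ∃ j, Ins g p (FG g σ j) := by
    intro σ hσ hD
    refine hPRX g r w (M * μ) q t hinj hP.rr f (FG g σ) s ?_ i₀ θ hi₀ hD
    intro i hi hb
    exact hσ ⟨i, hi, hb⟩
  have hXb : s ≤ 2 ^ n → 4 * (2 ^ t * b) ≤ N := by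
    intro hs
    have h1 := hP.bad
    have h2 : 4 * (2 ^ t * b) * Y ≤ N * Y := by
      calc 4 * (2 ^ t * b) * Y = 4 * (2 ^ t * (b * Y)) := by ring
        _ ≤ 4 * (2 ^ t * (s * X)) := by gcongr
        _ ≤ 4 * (2 ^ t * (2 ^ n * X)) := by gcongr
        _ = 2 ^ (n + t + 2) * (s₀ * μ) ^ (q + 1) * N := by
          rw [hX, pow_add, pow_add]
          ring
        _ ≤ Y * N := Nat.mul_le_mul_right _ h1
        _ = N * Y := Nat.mul_comm _ _
    exact Nat.le_of_mul_le_mul_right h2 hYpos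
  constructor
  · -- (a)
    intro hs hb
    have hsn : s ≤ 2 ^ n := le_two_pow hP.γ1 hs
    have hall : ∀ σ : Signs n M μ, DerivesR (Set.range (cf g (FG g σ))) f t i₀ θ →
        ∃ i, i < s ∧ Bad g q (KR g r w f i) (FG g σ) := by
      intro σ hσ
      by_contra hcon
      obtain ⟨⟨T, hT1, hT2, hT3⟩, _⟩ := hPR' σ hcon hσ
      have hcap := Pool.Agent.H41.MC.pf_CAP g q hinj T _ hT2 hT3
      have hsub : (univ.filter fun x : Fin n → Bool => f i₀ x < θ) ⊆
          ER g r w f (i₀ + 1) ∪ BR (ER g r w f (i₀ + 1)) (f i₀) θ := by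
        intro x hx
        rw [mem_filter] at hx
        rw [mem_union]
        by_cases hxe : x ∈ ER g r w f (i₀ + 1)
        · exact Or.inl hxe
        · right
          unfold BR
          rw [mem_filter]
          exact ⟨mem_univ _, hxe, hx.2⟩
      have hcard : Nat.card {x : Fin n → Bool // f i₀ x < θ} ≤
          (i₀ + 1) * tau n r w d s₀ + q * 2 ^ (n - k) := by
        rw [Nat.card_eq_fintype_card, Fintype.card_subtype]
        calc _ ≤ _ := card_le_card hsub
          _ ≤ _ := card_union_le _ _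
          _ ≤ _ := Nat.add_le_add (hEE (i₀ + 1)) hcap
      have hr : (4 : ℝ) * ((i₀ + 1) * tau n r w d s₀ : ℕ) ≤ 2 ^ n := by
        have h1 : ((i₀ + 1 : ℕ) : ℝ) ≤ 2 ^ (γ * n) := by
          refine le_trans ?_ hs
          exact_mod_cast hi₀
        have h2 := hP.tau4
        calc (4 : ℝ) * ((i₀ + 1) * tau n r w d s₀ : ℕ)
            = ((i₀ + 1 : ℕ) : ℝ) * (4 * (tau n r w d s₀ : ℝ)) := by push_cast; ring
          _ ≤ 2 ^ (γ * n) * 2 ^ ((1 - γ) * n) := by
            apply mul_le_mul h1 h2 (by positivity) (by positivity)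
          _ = 2 ^ n := pow_split n
      have hr' : 4 * ((i₀ + 1) * tau n r w d s₀) ≤ 2 ^ n := by exact_mod_cast hr
      have hcov := hP.cov
      omega
    have ha : Nat.card {σ : Signs n M μ // DerivesR (Set.range (cf g (FG g σ))) f t i₀ θ} ≤ b :=
      card_mono hall
    have h1 := hXb hsn
    have h2 : 2 ^ t * Nat.card {σ : Signs n M μ //
        DerivesR (Set.range (cf g (FG g σ))) f t i₀ θ} ≤ 2 ^ t * b := Nat.mul_le_mul_left _ ha
    omega
  · -- (b)
    intro hb
    have hbn : Nat.card {x : Fin n → Bool // f i₀ x < θ} ≤ 2 ^ n := by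
      rw [Nat.card_eq_fintype_card]
      refine le_trans (Fintype.card_subtype_le _) ?_
      simp
    have hsr : (s : ℝ) ≤ 2 ^ (γ * n) := by
      have h1 : (s : ℝ) * 2 ^ ((1 - γ) * n) < 2 ^ n := by
        refine lt_of_lt_of_le hb ?_
        exact_mod_cast hbn
      rw [← pow_split (γ := γ) n] at h1
      have h2 : (0 : ℝ) < 2 ^ ((1 - γ) * n) := by positivity
      exact le_of_lt (lt_of_mul_lt_mul_right h1 h2.le)
    have hsn : s ≤ 2 ^ n := le_two_pow hP.γ1 hsr
    -- a point outside of the exceptions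
    obtain ⟨x, hxθ, hxE⟩ : ∃ x : Fin n → Bool, f i₀ x < θ ∧ x ∉ ER g r w f (i₀ + 1) := by
      by_contra hcon
      push Not at hcon
      have hsub : (univ.filter fun x : Fin n → Bool => f i₀ x < θ) ⊆
          ER g r w f (i₀ + 1) := by
        intro x hx
        rw [mem_filter] at hx
        exact hcon x hx.2
      have hcard : Nat.card {x : Fin n → Bool // f i₀ x < θ} ≤
          (i₀ + 1) * tau n r w d s₀ := by
        rw [Nat.card_eq_fintype_card, Fintype.card_subtype]
        exact (card_le_card hsub).trans (hEE (i₀ + 1))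
      have hcr : (Nat.card {x : Fin n → Bool // f i₀ x < θ} : ℝ) ≤
          ((i₀ + 1) * tau n r w d s₀ : ℕ) := by exact_mod_cast hcard
      have h1 : ((i₀ + 1 : ℕ) : ℝ) ≤ s := by exact_mod_cast hi₀
      have h2 := hP.tau4
      have h3 : (((i₀ + 1) * tau n r w d s₀ : ℕ) : ℝ) ≤ s * 2 ^ ((1 - γ) * n) := by
        push_cast
        push_cast at h1
        have h4 : (0 : ℝ) ≤ tau n r w d s₀ := Nat.cast_nonneg _
        apply mul_le_mul h1 _ h4 (Nat.cast_nonneg _)
        linarith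
      linarith
    have hEEs : ER g r w f (i₀ + 1) = ER g r w f i₀ ∪ univ.filter fun x => ∃ a : ℝ,
        x ∈ Err g r w (BR (ER g r w f i₀) (f i₀) a) := rfl
    rw [hEEs, mem_union, not_or, mem_filter, not_and] at hxE
    have hxB : x ∈ BR (ER g r w f i₀) (f i₀) θ := by
      unfold BR
      rw [mem_filter]
      exact ⟨mem_univ _, hxE.1, hxθ⟩
    have hxErr : x ∉ Err g r w (BR (ER g r w f i₀) (f i₀) θ) := fun hx =>
      hxE.2 (mem_univ _) ⟨θ, hx⟩
    obtain ⟨A, hA, hAK⟩ : ∃ A : Finset (Fin n), A.card < w ∧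
        (A, x) ∈ Ker g r w (BR (ER g r w f i₀) (f i₀) θ) := by
      by_contra hcon
      push Not at hcon
      apply hxErr
      unfold Err
      rw [mem_filter]
      exact ⟨hxB, hcon⟩
    have hall : ∀ σ : Signs n M μ, DerivesR (Set.range (cf g (FG g σ))) f t i₀ θ →
        (∃ i, i < s ∧ Bad g q (KR g r w f i) (FG g σ)) ∨ ∃ j, Ins g (A, x) (FG g σ j) := by
      intro σ hσ
      by_cases hcon : ∃ i, i < s ∧ Bad g q (KR g r w f i) (FG g σ)
      · exact Or.inl hcon
      · exact Or.inr ((hPR' σ hcon hσ).2 (A, x) hAK)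
    have hhit := hHTX (μ := μ) g w s₀ hinj hH1 (A, x) hA
    set c := Nat.card {σ : Signs n M μ // ∃ j, Ins g (A, x) (FG g σ j)} with hc
    have ha : Nat.card {σ : Signs n M μ // DerivesR (Set.range (cf g (FG g σ))) f t i₀ θ} ≤
        b + c :=
      (card_mono hall).trans (card_or _ _)
    have h1 := hXb hsn
    have h2 := hP.hit
    have h3 : t ≤ 2 ^ t := Nat.lt_two_pow_self.le
    have h4 : 4 * (t * b) ≤ N := le_trans (by gcongr) h1
    have h5 : t * Nat.card {σ : Signs n M μ // DerivesR (Set.range (cf g (FG g σ))) f t i₀ θ} ≤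
        t * b + t * c := by
      rw [← Nat.mul_add]
      exact Nat.mul_le_mul_left _ ha
    have h6 : 4 * (t * c) ≤ N := by
      have h7 : 4 * (t * c) * 2 ^ k ≤ N * 2 ^ k := by
        calc 4 * (t * c) * 2 ^ k = 4 * (t * (c * 2 ^ k)) := by ring
          _ ≤ 4 * (t * (s₀ * μ * N)) := by gcongr
          _ = 4 * (t * (s₀ * μ)) * N := by ring
          _ ≤ 2 ^ k * N := Nat.mul_le_mul_right _ h2
          _ = N * 2 ^ k := Nat.mul_comm _ _
      exact Nat.le_of_mul_le_mul_right h7 (by positivity)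
    omega

end Pool.Agent.H15.FLX
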